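import Pool.Agent.H54.WB.TargetsA

/-!
Board wdb_modules (MP_64fb07_lc), row MON: the sizes grow.
-/

set_option autoImplicit false

namespace Pool.Agent.H66.WB

open Pool.Agent.H54.WB

theorem tw_mono (l : ℕ) : Monotone (Tw l) := by
  induction l with
  | zero => exact fun a b h => h
  | succ l ih => exact fun a b h => Nat.pow_le_pow_right (by norm_num) (ih h)

theorem sz_mono (L : ℕ) : Monotone (fun d => sz d L) := by
  induction L with
  | zero => exact fun a b _ => le_rfl
  | succ L ih =>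
    intro a b h
    show 1 + Tw L a * sz a L ≤ 1 + Tw L b * sz b L
    exact Nat.add_le_add_left (Nat.mul_le_mul (tw_mono L h) (ih h)) 1

theorem dd_mono (L : ℕ) : Monotone (dd L) :=
  Monotone.iterate (fun _ _ h => Nat.clog_mono_right 2 h) L

theorem pf_MON : T_MON := by
  refine ⟨fun L K K' h => ?_, fun κ K K' h => ?_⟩
  · have h1 : dd L K ≤ dd L K' := dd_mono L h.le
    have h2 : 1 + 2 * sz (dd L K) L ≤ 1 + 2 * sz (dd L K') L :=
      Nat.add_le_add_left (Nat.mul_le_mul_left 2 (sz_mono L h1)) 1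
    have h3 : K * K < K' * K' := Nat.mul_self_lt_mul_self h
    have h4 : K * K * (1 + 2 * sz (dd L K) L) < K' * K' * (1 + 2 * sz (dd L K') L) :=
      lt_of_le_of_lt (Nat.mul_le_mul_left _ h2) (Nat.mul_lt_mul_of_pos_right h3 (by omega))
    show 2 * dd L K + K * K * (1 + 2 * sz (dd L K) L) <
      2 * dd L K' + K' * K' * (1 + 2 * sz (dd L K') L)
    omega
  · have h1 : Nat.clog 2 K ≤ Nat.clog 2 K' := Nat.clog_mono_right 2 h.le
    have h3 : K * K < K' * K' := Nat.mul_self_lt_mul_self h
    show 4 * (Nat.clog 2 K - κ) + K * K < 4 * (Nat.clog 2 K' - κ) + K' * K'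
    omega

end Pool.Agent.H66.WB
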