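import Pool.Agent.H54.WB.TargetsC

/-!
# Rows NPD and NTM
-/

set_option autoImplicit false

namespace Pool.Agent.H66.WB

open Pool.Agent.H54.WB Pool.Agent.H76.ADV Pool.Agent.H8.MC Pool.Agent.H69.VR

theorem tw_add (h x : ℕ) : ∀ j, Tw h x + j ≤ Tw h (x + j) := by
  have h1 : ∀ h x, Tw h x + 1 ≤ Tw h (x + 1) := by
    intro h
    induction h with
    | zero => exact fun x => le_refl _
    | succ h ih =>
      intro x
      show 2 ^ Tw h x + 1 ≤ 2 ^ Tw h (x + 1)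
      calc 2 ^ Tw h x + 1 ≤ 2 ^ Tw h x + 2 ^ Tw h x := Nat.add_le_add_left Nat.one_le_two_pow _
        _ = 2 ^ (Tw h x + 1) := by rw [pow_succ]; ring
        _ ≤ 2 ^ Tw h (x + 1) := Nat.pow_le_pow_right (by norm_num) (ih x)
  intro j
  induction j with
  | zero => exact le_refl _
  | succ j ih =>
    have h2 := h1 h (x + j)
    show Tw h x + (j + 1) ≤ Tw h (x + j + 1)
    omega

theorem fac_le (T : ℕ) : (2 ^ T).factorial ≤ 2 ^ 2 ^ (2 * T) := by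
  calc (2 ^ T).factorial ≤ (2 ^ T) ^ (2 ^ T) := Nat.factorial_le_pow _
    _ = 2 ^ (T * 2 ^ T) := by rw [← pow_mul]
    _ ≤ 2 ^ (2 ^ T * 2 ^ T) :=
      Nat.pow_le_pow_right (by norm_num) (Nat.mul_le_mul_right _ Nat.lt_two_pow_self.le)
    _ = 2 ^ 2 ^ (2 * T) := by rw [← pow_add, two_mul]

theorem cc_le (T : ℕ) : cc T ≤ 2 ^ 2 ^ 2 ^ (2 * T + 2) := by
  have h1 : T ≤ 2 ^ 2 ^ (2 * T) := by
    have := (Nat.lt_two_pow_self (n := T)).le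
    have h2 : 2 ^ T ≤ 2 ^ 2 ^ (2 * T) :=
      Nat.pow_le_pow_right (by norm_num) (by
        have := (Nat.lt_two_pow_self (n := 2 * T)).le
        omega)
    omega
  have h2 : T * (2 ^ T).factorial ≤ 2 ^ 2 ^ (2 * T + 1) := by
    calc T * (2 ^ T).factorial ≤ 2 ^ 2 ^ (2 * T) * 2 ^ 2 ^ (2 * T) :=
          Nat.mul_le_mul h1 (fac_le T)
      _ = 2 ^ 2 ^ (2 * T + 1) := by rw [← pow_add, ← two_mul, ← pow_succ']
  have h3 : T ≤ 2 ^ 2 ^ (2 * T + 1) :=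
    h1.trans (Nat.pow_le_pow_right (by norm_num) (Nat.pow_le_pow_right (by norm_num) (by omega)))
  have h4 : 2 ^ T ≤ 2 ^ 2 ^ 2 ^ (2 * T + 1) := Nat.pow_le_pow_right (by norm_num) h3
  have h5 : 2 ^ (T * (2 ^ T).factorial) ≤ 2 ^ 2 ^ 2 ^ (2 * T + 1) :=
    Nat.pow_le_pow_right (by norm_num) h2
  have h6 : 1 ≤ 2 ^ 2 ^ 2 ^ (2 * T + 1) := Nat.one_le_two_pow
  calc cc T = 2 ^ T + 2 ^ (T * (2 ^ T).factorial) + 1 := rfl
    _ ≤ 2 ^ (2 ^ 2 ^ (2 * T + 1) + 2) := by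
      rw [pow_add]
      omega
    _ ≤ 2 ^ (2 ^ (2 ^ (2 * T + 1) + 1)) := by
      refine Nat.pow_le_pow_right (by norm_num) ?_
      have h7 : 2 ≤ 2 ^ 2 ^ (2 * T + 1) := by
        calc 2 = 2 ^ 1 := rfl
          _ ≤ 2 ^ 2 ^ (2 * T + 1) := Nat.pow_le_pow_right (by norm_num) Nat.one_le_two_pow
      have h10 : 2 ^ (2 ^ (2 * T + 1) + 1) = 2 ^ 2 ^ (2 * T + 1) * 2 := pow_succ _ _
      omega
    _ ≤ 2 ^ 2 ^ 2 ^ (2 * T + 2) := by
      refine Nat.pow_le_pow_right (by norm_num) (Nat.pow_le_pow_right (by norm_num) ?_)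
      have h8 : 1 ≤ 2 ^ (2 * T + 1) := Nat.one_le_two_pow
      have h9 : 2 ^ (2 * T + 2) = 2 ^ (2 * T + 1) * 2 := pow_succ _ _
      omega

theorem pf_NPD (hNGS : T_NGS) (hPER : T_PER) (hTYF : T_TYF) (hDDU : T_DDU) : T_NPD := by
  intro Ψ hB
  obtain ⟨Ψ', hG⟩ := hNGS Ψ hB
  obtain ⟨h0, c0, h1⟩ := hTYF Ψ'
  refine ⟨h0 + 4, c0 + 3, fun k m n hm hn hg => ?_⟩
  obtain ⟨H, s, hH⟩ := hG k
  have hfin : Finite (Ψ'.T (Fin k)) := Ψ'.finT (Fin k)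
  have h2 : Nat.card (Option (Unit × Ψ'.T (Fin k))) ≤ Tw h0 (k + c0) + 1 := by
    rw [Finite.card_option, Nat.card_prod, Nat.card_unique, one_mul]
    exact Nat.add_le_add_right (h1 k) 1
  have h3 : 2 * (Tw h0 (k + c0) + 1) + 2 ≤ 2 ^ Tw h0 (k + c0 + 3) := by
    have h4 := tw_add h0 (k + c0) 3
    calc 2 * (Tw h0 (k + c0) + 1) + 2 ≤ 2 ^ (Tw h0 (k + c0) + 3) := by
          have h5 := (Nat.lt_two_pow_self (n := Tw h0 (k + c0)))
          rw [pow_add]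
          omega
      _ ≤ 2 ^ Tw h0 (k + c0 + 3) := Nat.pow_le_pow_right (by norm_num) h4
  have h4 : 2 ^ 2 ^ 2 ^ (2 * (Tw h0 (k + c0) + 1) + 2) ≤ Tw (h0 + 4) (k + (c0 + 3)) :=
    Nat.pow_le_pow_right (by norm_num) (Nat.pow_le_pow_right (by norm_num)
      (Nat.pow_le_pow_right (by norm_num) h3))
  have h5 : cc (Tw h0 (k + c0) + 1) ≤ Tw (h0 + 4) (k + (c0 + 3)) := (cc_le _).trans h4
  have h6 : (2 ^ (Tw h0 (k + c0) + 1)).factorial ≤ Tw (h0 + 4) (k + (c0 + 3)) := by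
    refine ((fac_le _).trans ?_).trans h4
    refine Nat.pow_le_pow_right (by norm_num) (Nat.pow_le_pow_right (by norm_num) ?_)
    have := (Nat.lt_two_pow_self (n := 2 * (Tw h0 (k + c0) + 1) + 2))
    omega
  rw [hH m, hH n]
  exact hPER _ _ H _ h2 s m n (h5.trans hm) (h5.trans hn) (hg _ (Nat.factorial_pos _) h6)

theorem pf_NTM (hTAG : T_TAG) (hNPD : T_NPD) (hNSO : T_NSO) (hSOR : T_SOR) : T_NTM := by
  intro f hf hs Ψ hB
  refine hTAG (SN Ψ) (fun k n h => h.1) (hNPD Ψ hB) ?_ f hf hs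
  intro nf kf hn hk hbd
  obtain ⟨φ, hφ⟩ := hNSO Ψ hB
  obtain ⟨r1, r2⟩ := hSOR φ nf kf hn hk hbd
  refine ⟨((RL.lt (GR.num 0) hn).and r1).congr fun u => ?_,
    ((RL.eq hn (GR.num 0)).or r2).congr fun u => ?_⟩
  · constructor
    · rintro ⟨h1, h2⟩
      exact (hφ _ _ h1).2 h2
    · intro h
      exact ⟨h.1, (hφ _ _ h.1).1 h⟩
  · constructor
    · rintro (h | h) h3
      · have h4 : 0 < nf u := h3.1
        omega
      · exact h ((hφ _ _ h3.1).1 h3)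
    · intro h
      by_cases h0 : nf u = 0
      · exact Or.inl h0
      · exact Or.inr fun h3 => h ((hφ _ _ (by omega)).2 h3)

end Pool.Agent.H66.WB
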