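import Pool.Agent.H54.WB.Rules
import Pool.Agent.H54.WB.TargetsA
import Pool.Agent.H69.WB.Cal

/-!
# Row VDF: the rules for digits given by a block are first-order definable
-/

set_option autoImplicit false

namespace Pool.Agent.H66.WB

open Pool.Agent.H54.WB Pool.Agent.H69.WB

section
variable {Q : Type} {κ : ℕ}

/-- the labels -/
abbrev Lv (κ : ℕ) (Q : Type) : Type := Fin 5 × (Bool → Fin (2 ^ κ)) × Q

/-- the role -/
def Ro {V : Type} (lb : V → Lv κ Q) (v : V) : ℕ := ((lb v).1 : ℕ)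

/-- the low digits -/
def Lo {V : Type} (lb : V → Lv κ Q) (s : Bool) (v : V) : ℕ := ((lb v).2.1 s : ℕ)

/-- the tile -/
def Ti {V : Type} (lb : V → Lv κ Q) (v : V) : Q := (lb v).2.2

theorem v_ro {n : ℕ} (c : ℕ) (i : Fin n) : DF (Λ := Lv κ Q) n (fun _ lb _ w => Ro lb (w i) = c) :=
  DF.lab (fun a : Lv κ Q => (a.1 : ℕ) = c) i

theorem v_lo {n : ℕ} (s : Bool) (c : ℕ) (i : Fin n) :
    DF (Λ := Lv κ Q) n (fun _ lb _ w => Lo lb s (w i) = c) :=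
  DF.lab (fun a : Lv κ Q => (a.2.1 s : ℕ) = c) i

theorem v_bl (s : Bool) : DF (Λ := Lv κ Q) 2 (fun _ lb E w => BLt E (Ro lb) s (w 0) (w 1)) := by
  refine (v_ro (cr s) 0).and ((v_ro (cr s) 1).and (DF.ex ?_))
  exact (v_ro (2 + cr s) 2).and ((DF.adj 2 0).and (DF.adj 2 1).not)

theorem v_hsame (s : Bool) :
    DF (Λ := Lv κ Q) 2 (fun _ lb E w => HSame E (Ro lb) s (w 0) (w 1)) := by
  refine DF.all ?_
  exact (v_ro (cr s) 2).imp ((DF.adj 0 2).iff (DF.adj 1 2))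

theorem v_hsuc (s : Bool) :
    DF (Λ := Lv κ Q) 2 (fun _ lb E w => HSuc E (Ro lb) s (w 0) (w 1)) := by
  refine DF.ex ((v_ro (cr s) 2).and ((DF.adj 0 2).not.and ((DF.adj 1 2).and (DF.all ?_))))
  exact (v_ro (cr s) 3).imp
    ((((v_bl s).sub ![2, 3]).imp ((DF.adj 0 3).iff (DF.adj 1 3))).and
      (((v_bl s).sub ![3, 2]).imp ((DF.adj 0 3).and (DF.adj 1 3).not)))

variable [Finite Q]

theorem v_sm (s : Bool) :
    DF (Λ := Lv κ Q) 2 (fun _ lb E w => VSame E (Ro lb) (Lo lb) s (w 0) (w 1)) :=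
  (DF.lab2 (fun a b : Lv κ Q => (a.2.1 s : ℕ) = (b.2.1 s : ℕ)) 0 1).and (v_hsame s)

theorem v_sc (s : Bool) :
    DF (Λ := Lv κ Q) 2 (fun _ lb E w => VSuc κ E (Ro lb) (Lo lb) s (w 0) (w 1)) :=
  ((DF.lab2 (fun a b : Lv κ Q => (a.2.1 s : ℕ) = (b.2.1 s : ℕ) + 1) 1 0).and (v_hsame s)).or
    ((DF.lab (fun a : Lv κ Q => (a.2.1 s : ℕ) + 1 = 2 ^ κ) 0).and
      ((v_lo s 0 1).and (v_hsuc s)))

theorem v_zr (s : Bool) : DF (Λ := Lv κ Q) 1 (fun _ lb E w => VZer E (Ro lb) (Lo lb) s (w 0)) := by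
  refine (v_lo s 0 0).and (DF.all ?_)
  exact (v_ro (cr s) 1).imp (DF.adj 0 1).not

theorem v_nsc (s : Bool) : DF (Λ := Lv κ Q) 1
    (fun _ lb E w => ¬ ∃ v, Ro lb v = 4 ∧ VSuc κ E (Ro lb) (Lo lb) s (w 0) v) := by
  refine DF.not (DF.ex ?_)
  exact (v_ro 4 1).and ((v_sc s).sub ![0, 1])

/-! ### the chain -/

omit [Finite Q] in
theorem v_seg (s : Bool) : DF (Λ := Lv κ Q) 2
    (fun _ lb E w => ∀ u, Ro lb u = cr s → (E (w 0) u ↔ BLt E (Ro lb) s u (w 1))) := by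
  refine DF.all ?_
  exact (v_ro (cr s) 2).imp ((DF.adj 0 2).iff ((v_bl s).sub ![2, 1]))

omit [Finite Q] in
theorem v_chn (s : Bool) : DF (Λ := Lv κ Q) 0
    (fun _ lb E _ => Chn E (fun v => Ro lb v = cr s) (fun v => Ro lb v = 2 + cr s)) := by
  have h1 : DF (Λ := Lv κ Q) 0 (fun _ lb E _ => ∀ u v, BLt E (Ro lb) s u v →
      ¬ BLt E (Ro lb) s v u) := by
    refine DF.all (DF.all ?_)
    exact ((v_bl s).sub ![0, 1]).imp ((v_bl s).sub ![1, 0]).not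
  have h2 : DF (Λ := Lv κ Q) 0 (fun _ lb E _ => ∀ u v, Ro lb u = cr s → Ro lb v = cr s → u ≠ v →
      BLt E (Ro lb) s u v ∨ BLt E (Ro lb) s v u) := by
    refine DF.all (DF.all ?_)
    exact (v_ro (cr s) 0).imp ((v_ro (cr s) 1).imp ((DF.eq 0 1).not.imp
      (((v_bl s).sub ![0, 1]).or ((v_bl s).sub ![1, 0]))))
  have h3 : DF (Λ := Lv κ Q) 0 (fun _ lb E _ => ∀ v, Ro lb v = cr s → ∃ c, Ro lb c = 2 + cr s ∧
      ∀ u, Ro lb u = cr s → (E c u ↔ BLt E (Ro lb) s u v)) := by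
    refine DF.all ((v_ro (cr s) 0).imp (DF.ex ((v_ro (2 + cr s) 1).and ?_)))
    exact (v_seg s).sub ![1, 0]
  have h4 : DF (Λ := Lv κ Q) 0 (fun _ lb E _ => ∀ v, Ro lb v = cr s → ∀ c c',
      Ro lb c = 2 + cr s → Ro lb c' = 2 + cr s →
      (∀ u, Ro lb u = cr s → (E c u ↔ BLt E (Ro lb) s u v)) →
      (∀ u, Ro lb u = cr s → (E c' u ↔ BLt E (Ro lb) s u v)) → c = c') := by
    refine DF.all ((v_ro (cr s) 0).imp (DF.all (DF.all ?_)))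
    exact (v_ro (2 + cr s) 1).imp ((v_ro (2 + cr s) 2).imp (((v_seg s).sub ![1, 0]).imp
      (((v_seg s).sub ![2, 0]).imp (DF.eq 1 2))))
  have h5 : DF (Λ := Lv κ Q) 0 (fun _ lb E _ => ∀ c, Ro lb c = 2 + cr s → ∃ v, Ro lb v = cr s ∧
      ∀ u, Ro lb u = cr s → (E c u ↔ BLt E (Ro lb) s u v)) := by
    refine DF.all ((v_ro (2 + cr s) 0).imp (DF.ex ((v_ro (cr s) 1).and ?_)))
    exact (v_seg s).sub ![0, 1]
  refine (h1.and (h2.and (h3.and (h4.and h5)))).congr fun V lb E w => ?_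
  exact ⟨fun ⟨a, b, c, d, e⟩ => ⟨a, b, c, d, e⟩, fun h => ⟨h.asym, h.tot, h.ex, h.un, h.all⟩⟩

/-! ### the grid -/

theorem v_grid (U : Bool → Bool → Bool → Bool → Q → Prop) (Hh Vv : Q → Q → Prop) :
    DF (Λ := Lv κ Q) 0 (fun _ lb E _ =>
      GridR U Hh Vv (fun z => Ro lb z = 4) (VSame E (Ro lb) (Lo lb)) (VSuc κ E (Ro lb) (Lo lb))
        (VZer E (Ro lb) (Lo lb)) (Ti lb)) := by
  have h1 : DF (Λ := Lv κ Q) 0 (fun _ lb E _ => ∀ z z', Ro lb z = 4 → Ro lb z' = 4 →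
      VSame E (Ro lb) (Lo lb) true z z' → VSame E (Ro lb) (Lo lb) false z z' → z = z') := by
    refine DF.all (DF.all ?_)
    exact (v_ro 4 0).imp ((v_ro 4 1).imp (((v_sm true).sub ![0, 1]).imp
      (((v_sm false).sub ![0, 1]).imp (DF.eq 0 1))))
  have h2 : DF (Λ := Lv κ Q) 0 (fun _ lb E _ => ∀ z z', Ro lb z = 4 → Ro lb z' = 4 →
      ∃ w, Ro lb w = 4 ∧ VSame E (Ro lb) (Lo lb) true z w ∧
        VSame E (Ro lb) (Lo lb) false z' w) := by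
    refine DF.all (DF.all ((v_ro 4 0).imp ((v_ro 4 1).imp (DF.ex ?_))))
    exact (v_ro 4 2).and (((v_sm true).sub ![0, 2]).and ((v_sm false).sub ![1, 2]))
  have h3 : DF (Λ := Lv κ Q) 0 (fun _ lb E _ => ∀ s z, Ro lb z = 4 →
      VZer E (Ro lb) (Lo lb) s z ∨ ∃ w, Ro lb w = 4 ∧ VSuc κ E (Ro lb) (Lo lb) s w z) := by
    refine DF.allF fun s => DF.all ((v_ro 4 0).imp (((v_zr s).sub ![0]).or (DF.ex ?_)))
    exact (v_ro 4 1).and ((v_sc s).sub ![1, 0])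
  have h4 : DF (Λ := Lv κ Q) 0 (fun _ lb _ _ => ∃ z, Ro lb z = 4) := by
    refine DF.ex ?_
    exact v_ro 4 0
  have h5 : DF (Λ := Lv κ Q) 0 (fun _ lb E _ => ∀ z, Ro lb z = 4 → ∀ a b c d : Bool,
      (a = true ↔ VZer E (Ro lb) (Lo lb) true z) →
      (b = true ↔ ¬ ∃ w, Ro lb w = 4 ∧ VSuc κ E (Ro lb) (Lo lb) true z w) →
      (c = true ↔ VZer E (Ro lb) (Lo lb) false z) →
      (d = true ↔ ¬ ∃ w, Ro lb w = 4 ∧ VSuc κ E (Ro lb) (Lo lb) false z w) →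
      U a b c d (Ti lb z)) := by
    refine DF.all ((v_ro 4 0).imp (DF.allF fun a => DF.allF fun b => DF.allF fun c =>
      DF.allF fun d => ?_))
    exact ((DF.const _).iff ((v_zr true).sub ![0])).imp
      (((DF.const _).iff ((v_nsc true).sub ![0])).imp
        (((DF.const _).iff ((v_zr false).sub ![0])).imp
          (((DF.const _).iff ((v_nsc false).sub ![0])).imp
            (DF.lab (fun l : Lv κ Q => U a b c d l.2.2) 0))))
  have h6 : DF (Λ := Lv κ Q) 0 (fun _ lb E _ => ∀ z z', Ro lb z = 4 → Ro lb z' = 4 →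
      VSuc κ E (Ro lb) (Lo lb) true z z' → VSame E (Ro lb) (Lo lb) false z z' →
      Hh (Ti lb z) (Ti lb z')) := by
    refine DF.all (DF.all ?_)
    exact (v_ro 4 0).imp ((v_ro 4 1).imp (((v_sc true).sub ![0, 1]).imp
      (((v_sm false).sub ![0, 1]).imp (DF.lab2 (fun a b : Lv κ Q => Hh a.2.2 b.2.2) 0 1))))
  have h7 : DF (Λ := Lv κ Q) 0 (fun _ lb E _ => ∀ z z', Ro lb z = 4 → Ro lb z' = 4 →
      VSame E (Ro lb) (Lo lb) true z z' → VSuc κ E (Ro lb) (Lo lb) false z z' →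
      Vv (Ti lb z) (Ti lb z')) := by
    refine DF.all (DF.all ?_)
    exact (v_ro 4 0).imp ((v_ro 4 1).imp (((v_sm true).sub ![0, 1]).imp
      (((v_sc false).sub ![0, 1]).imp (DF.lab2 (fun a b : Lv κ Q => Vv a.2.2 b.2.2) 0 1))))
  refine (h1.and (h2.and (h3.and (h4.and (h5.and (h6.and h7)))))).congr fun V lb E w => ?_
  exact ⟨fun ⟨a, b, c, d, e, f, g⟩ => ⟨a, b, c, d, e, f, g⟩,
    fun h => ⟨h.gi, h.gp, h.gd, h.ne, h.un, h.hh, h.vv⟩⟩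

theorem v_rule (U : Bool → Bool → Bool → Bool → Q → Prop) (Hh Vv : Q → Q → Prop) :
    DF (Λ := Lv κ Q) 0 (fun _ lb E _ => VRule κ U Hh Vv E (Ro lb) (Lo lb) (Ti lb)) := by
  have h2 : DF (Λ := Lv κ Q) 0 (fun _ lb E _ => ∀ u v, E u v → VEdge (Ro lb u) (Ro lb v)) := by
    refine DF.all (DF.all ?_)
    exact (DF.adj 0 1).imp (DF.lab2 (fun a b : Lv κ Q => VEdge (a.1 : ℕ) (b.1 : ℕ)) 0 1)
  have h3 : DF (Λ := Lv κ Q) 0 (fun _ lb E _ => ∀ s, ∃ z v, Ro lb z = 4 ∧ Ro lb v = cr s ∧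
      E z v ∧ ∀ u, ¬ BLt E (Ro lb) s v u) := by
    refine DF.allF fun s => DF.ex (DF.ex ((v_ro 4 0).and ((v_ro (cr s) 1).and
      ((DF.adj 0 1).and (DF.all ?_)))))
    exact ((v_bl s).sub ![1, 2]).not
  refine (h2.and ((DF.allF fun s => v_chn s).and (h3.and (v_grid U Hh Vv)))).congr
    fun V lb E w => ?_
  refine ⟨fun ⟨b, c, d, e⟩ => ⟨fun v => ?_, fun s v => ?_, b, c, d, e⟩,
    fun h => ⟨h.edge, h.chn, h.hi, h.grid⟩⟩
  · exact Nat.lt_succ_iff.1 (lb v).1.is_lt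
  · exact ((lb v).2.1 s).is_lt

end

theorem pf_VDF : T_VDF := by
  intro Q _ κ U Hh Vv
  exact (v_rule (κ := κ) U Hh Vv).toDf fun V lb E e => Iff.rfl

end Pool.Agent.H66.WB
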