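import Pool.Agent.H54.WB.TargetsA

/-!
Board wdb_modules (MP_64fb07_lc), row VEX: models of the rules with digits given by the adjacency to a
block exist.
-/

set_option autoImplicit false
set_option linter.unusedVariables false

namespace Pool.Agent.H66.WB

open Pool.Agent.H54.WB
open Pool.Agent.H8.PL (GridF)

/-- the vertices: the core, the chains, the cells -/
abbrev VX (b K : ℕ) : Type := (Bool × Fin b) ⊕ ((Bool × Fin b) ⊕ (Fin K × Fin K))

section
variable {b K : ℕ} (κ : ℕ)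

/-- the coordinates of a cell -/
def xc (s : Bool) (z : Fin K × Fin K) : ℕ := if s = true then z.1 else z.2

/-- adjacency, from the chains and the cells to the core -/
def xE : VX b K → VX b K → Prop
  | Sum.inr (Sum.inl p), Sum.inl q => p.1 = q.1 ∧ q.2 < p.2
  | Sum.inr (Sum.inr z), Sum.inl q => (xc q.1 z / 2 ^ κ).testBit q.2 = true
  | _, _ => False

/-- the graph -/
def xG : SimpleGraph (VX b K) where
  Adj u v := xE κ u v ∨ xE κ v u
  symm := ⟨fun u v h => h.symm⟩
  loopless := ⟨fun v h => by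
    rcases v with p | p | z <;> rcases h with h | h <;> exact h⟩

/-- the roles -/
def xro : VX b K → ℕ
  | Sum.inl p => cr p.1
  | Sum.inr (Sum.inl p) => 2 + cr p.1
  | Sum.inr (Sum.inr _) => 4

/-- the low digits -/
def xlo (s : Bool) : VX b K → ℕ
  | Sum.inr (Sum.inr z) => xc s z % 2 ^ κ
  | _ => 0

/-- the tiles -/
def xti {Q : Type} (t : ℕ → ℕ → Q) : VX b K → Q
  | Sum.inr (Sum.inr z) => t z.1 z.2
  | _ => t 0 0

theorem cr_le (s : Bool) : cr s ≤ 1 := by
  unfold cr
  split_ifs <;> omega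

theorem cr_inj {s s' : Bool} (h : cr s = cr s') : s = s' := by
  unfold cr at h
  cases s <;> cases s' <;> simp_all

theorem xro_core {s : Bool} {v : VX b K} (h : xro v = cr s) : ∃ i, v = Sum.inl (s, i) := by
  have h1 := cr_le s
  rcases v with ⟨s', i⟩ | ⟨s', i⟩ | z
  · have h2 : s' = s := cr_inj h
    exact ⟨i, by rw [h2]⟩
  · have h2 : 2 + cr s' = cr s := h
    omega
  · have h2 : 4 = cr s := h
    omega

theorem xro_chain {s : Bool} {v : VX b K} (h : xro v = 2 + cr s) :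
    ∃ i, v = Sum.inr (Sum.inl (s, i)) := by
  have h1 := cr_le s
  rcases v with ⟨s', i⟩ | ⟨s', i⟩ | z
  · have h2 : cr s' = 2 + cr s := h
    have h3 := cr_le s'
    omega
  · have h2 : 2 + cr s' = 2 + cr s := h
    have h3 : s' = s := cr_inj (by omega)
    exact ⟨i, by rw [h3]⟩
  · have h2 : 4 = 2 + cr s := h
    omega

theorem xro_cell {v : VX b K} (h : xro v = 4) : ∃ z, v = Sum.inr (Sum.inr z) := by
  rcases v with ⟨s', i⟩ | ⟨s', i⟩ | z
  · have h2 : cr s' = 4 := h
    have h3 := cr_le s'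
    omega
  · have h2 : 2 + cr s' = 4 := h
    have h3 := cr_le s'
    omega
  · exact ⟨z, rfl⟩

theorem adj_chain (s s' : Bool) (i j : Fin b) :
    (xG (K := K) κ).Adj (Sum.inr (Sum.inl (s, i))) (Sum.inl (s', j)) ↔ s = s' ∧ j < i :=
  ⟨fun h => h.elim id False.elim, Or.inl⟩

theorem adj_cell (s : Bool) (z : Fin K × Fin K) (j : Fin b) :
    (xG κ).Adj (Sum.inr (Sum.inr z)) (Sum.inl (s, j)) ↔
      (xc s z / 2 ^ κ).testBit j = true :=
  ⟨fun h => h.elim id False.elim, Or.inl⟩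

theorem clt_iff (s : Bool) (i j : Fin b) :
    CLt (xG (K := K) κ).Adj (fun v => xro v = cr s) (fun v => xro v = 2 + cr s)
      (Sum.inl (s, i)) (Sum.inl (s, j)) ↔ i < j := by
  constructor
  · rintro ⟨_, _, c, hc, h1, h2⟩
    obtain ⟨k, rfl⟩ := xro_chain hc
    rw [adj_chain] at h1 h2
    have h3 : ¬ j < k := fun h => h2 ⟨rfl, h⟩
    exact lt_of_lt_of_le h1.2 (not_lt.1 h3)
  · intro h
    exact ⟨rfl, rfl, Sum.inr (Sum.inl (s, j)), rfl, (adj_chain κ s s j i).2 ⟨rfl, h⟩,
      fun h' => lt_irrefl _ ((adj_chain κ s s j j).1 h').2⟩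

theorem xchn (s : Bool) : Chn (xG (b := b) (K := K) κ).Adj (fun v => xro v = cr s)
    (fun v => xro v = 2 + cr s) where
  asym u v h h' := by
    obtain ⟨i, rfl⟩ := xro_core h.1
    obtain ⟨j, rfl⟩ := xro_core h.2.1
    exact lt_asymm ((clt_iff κ s i j).1 h) ((clt_iff κ s j i).1 h')
  tot u v hu hv hne := by
    obtain ⟨i, rfl⟩ := xro_core hu
    obtain ⟨j, rfl⟩ := xro_core hv
    rw [clt_iff, clt_iff]
    exact lt_or_gt_of_ne fun h => hne (by rw [h])
  ex v hv := by
    obtain ⟨j, rfl⟩ := xro_core hv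
    refine ⟨Sum.inr (Sum.inl (s, j)), rfl, fun u hu => ?_⟩
    obtain ⟨i, rfl⟩ := xro_core hu
    rw [clt_iff, adj_chain]
    exact ⟨fun h => h.2, fun h => ⟨rfl, h⟩⟩
  un v hv c c' hc hc' h h' := by
    obtain ⟨j, rfl⟩ := xro_core hv
    obtain ⟨k, rfl⟩ := xro_chain hc
    obtain ⟨k', rfl⟩ := xro_chain hc'
    have key : ∀ k : Fin b, (∀ u, xro u = cr s → ((xG (K := K) κ).Adj (Sum.inr (Sum.inl (s, k))) u ↔
        CLt (xG κ).Adj (fun v => xro v = cr s) (fun v => xro v = 2 + cr s) u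
          (Sum.inl (s, j)))) → k = j := by
      intro k hk
      rcases lt_trichotomy k j with h1 | h1 | h1
      · have h2 := (hk (Sum.inl (s, k)) rfl).2 ((clt_iff κ s k j).2 h1)
        exact absurd ((adj_chain κ s s k k).1 h2).2 (lt_irrefl _)
      · exact h1
      · have h2 := (hk (Sum.inl (s, j)) rfl).1 ((adj_chain κ s s k j).2 ⟨rfl, h1⟩)
        exact absurd ((clt_iff κ s j j).1 h2) (lt_irrefl _)
    rw [key k h, key k' h']
  all c hc := by
    obtain ⟨j, rfl⟩ := xro_chain hc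
    refine ⟨Sum.inl (s, j), rfl, fun u hu => ?_⟩
    obtain ⟨i, rfl⟩ := xro_core hu
    rw [clt_iff, adj_chain]
    exact ⟨fun h => h.2, fun h => ⟨rfl, h⟩⟩

end

theorem num_same {P a a' : ℕ} : (a % P = a' % P ∧ a / P = a' / P) ↔ a = a' := by
  constructor
  · rintro ⟨h1, h2⟩
    rw [← Nat.div_add_mod a P, ← Nat.div_add_mod a' P, h1, h2]
  · rintro rfl
    exact ⟨rfl, rfl⟩

theorem num_suc {P a a' : ℕ} (hP : 0 < P) : ((a' % P = a % P + 1 ∧ a / P = a' / P) ∨
    (a % P + 1 = P ∧ a' % P = 0 ∧ a' / P = a / P + 1)) ↔ a' = a + 1 := by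
  have e1 := Nat.div_add_mod a P
  have e2 := Nat.div_add_mod a' P
  constructor
  · rintro (⟨h1, h2⟩ | ⟨h1, h2, h3⟩)
    · rw [← e2, ← h2, h1]
      omega
    · rw [← e2, h2, h3, Nat.mul_add]
      omega
  · rintro rfl
    have hlt := Nat.mod_lt a hP
    rcases Nat.lt_or_ge (a % P + 1) P with h | h
    · left
      have h1 : a + 1 = P * (a / P) + (a % P + 1) := by omega
      constructor
      · rw [h1, Nat.mul_add_mod, Nat.mod_eq_of_lt h]
      · rw [h1, Nat.mul_add_div hP, Nat.div_eq_of_lt h, add_zero]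
    · right
      have h0 : a % P + 1 = P := by omega
      have h1 : a + 1 = P * (a / P + 1) + 0 := by
        rw [Nat.mul_add]
        omega
      refine ⟨h0, ?_, ?_⟩
      · rw [h1, Nat.mul_add_mod, Nat.zero_mod]
      · rw [h1, Nat.mul_add_div hP, Nat.zero_div, add_zero]

section
variable {b K κ : ℕ} (hK : K ≤ 2 ^ (κ + b))
include hK

theorem xc_div_lt (s : Bool) (z : Fin K × Fin K) : xc s z / 2 ^ κ < 2 ^ b := by
  have h : xc s z < 2 ^ κ * 2 ^ b := by
    rw [← pow_add]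
    refine lt_of_lt_of_le ?_ hK
    unfold xc
    split_ifs
    · exact z.1.2
    · exact z.2.2
  exact Nat.div_lt_of_lt_mul h

theorem hsame_iff (hBIT : T_BIT) (s : Bool) (z w : Fin K × Fin K) :
    HSame (xG (b := b) κ).Adj xro s (Sum.inr (Sum.inr z)) (Sum.inr (Sum.inr w)) ↔
      xc s z / 2 ^ κ = xc s w / 2 ^ κ := by
  obtain ⟨-, h2, -, -, -, -, -, h8⟩ := hBIT b
  have h3 := h2 (fun i => (xc s z / 2 ^ κ).testBit i = true)
    (fun i => (xc s w / 2 ^ κ).testBit i = true)
  rw [h8 _ (xc_div_lt hK s z), h8 _ (xc_div_lt hK s w)] at h3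
  rw [← h3]
  constructor
  · intro h i hi
    have h4 := h (Sum.inl (s, ⟨i, hi⟩)) rfl
    rwa [adj_cell, adj_cell] at h4
  · intro h v hv
    obtain ⟨i, rfl⟩ := xro_core hv
    rw [adj_cell, adj_cell]
    exact h i i.2

theorem hsuc_iff (hBIT : T_BIT) (s : Bool) (z w : Fin K × Fin K) :
    HSuc (xG (b := b) κ).Adj xro s (Sum.inr (Sum.inr z)) (Sum.inr (Sum.inr w)) ↔
      xc s w / 2 ^ κ = xc s z / 2 ^ κ + 1 := by
  obtain ⟨-, -, -, h4, -, -, -, h8⟩ := hBIT b
  have h3 := h4 (fun i => (xc s z / 2 ^ κ).testBit i = true)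
    (fun i => (xc s w / 2 ^ κ).testBit i = true)
  rw [h8 _ (xc_div_lt hK s z), h8 _ (xc_div_lt hK s w)] at h3
  rw [← h3]
  constructor
  · rintro ⟨v, hv, h5, h6, h7⟩
    obtain ⟨i, rfl⟩ := xro_core hv
    rw [adj_cell] at h5 h6
    refine ⟨i, i.2, h5, h6, fun j hj hij => ?_, fun j hj => ?_⟩
    · have h9 := (h7 (Sum.inl (s, ⟨j, hj⟩)) rfl).1 ((clt_iff κ s i ⟨j, hj⟩).2 hij)
      rwa [adj_cell, adj_cell] at h9
    · have h9 := (h7 (Sum.inl (s, ⟨j, hj.trans i.2⟩)) rfl).2
        ((clt_iff κ s ⟨j, hj.trans i.2⟩ i).2 hj)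
      rwa [adj_cell, adj_cell] at h9
  · rintro ⟨i, hi, h5, h6, h7, h9⟩
    refine ⟨Sum.inl (s, ⟨i, hi⟩), rfl, ?_, ?_, fun u hu => ?_⟩
    · rw [adj_cell]; exact h5
    · rw [adj_cell]; exact h6
    · obtain ⟨j, rfl⟩ := xro_core hu
      constructor
      · intro hl
        have hl' : (⟨i, hi⟩ : Fin b) < j := (clt_iff κ s ⟨i, hi⟩ j).1 hl
        rw [adj_cell, adj_cell]
        exact h7 j j.2 hl'
      · intro hl
        have hl' : j < (⟨i, hi⟩ : Fin b) := (clt_iff κ s j ⟨i, hi⟩).1 hl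
        rw [adj_cell, adj_cell]
        exact h9 j hl'

theorem vsame_iff (hBIT : T_BIT) (s : Bool) (z w : Fin K × Fin K) :
    VSame (xG (b := b) κ).Adj xro (xlo κ) s (Sum.inr (Sum.inr z)) (Sum.inr (Sum.inr w)) ↔
      xc s z = xc s w := by
  unfold VSame
  rw [hsame_iff hK hBIT]
  exact num_same

theorem vsuc_iff (hBIT : T_BIT) (s : Bool) (z w : Fin K × Fin K) :
    VSuc κ (xG (b := b) κ).Adj xro (xlo κ) s (Sum.inr (Sum.inr z)) (Sum.inr (Sum.inr w)) ↔
      xc s w = xc s z + 1 := by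
  unfold VSuc
  rw [hsame_iff hK hBIT, hsuc_iff hK hBIT]
  exact num_suc (by positivity)

theorem vzer_iff (hBIT : T_BIT) (s : Bool) (z : Fin K × Fin K) :
    VZer (xG (b := b) κ).Adj xro (xlo κ) s (Sum.inr (Sum.inr z)) ↔ xc s z = 0 := by
  obtain ⟨-, -, -, -, h5, -, -, h8⟩ := hBIT b
  have h3 := h5 (fun i => (xc s z / 2 ^ κ).testBit i = true)
  rw [h8 _ (xc_div_lt hK s z)] at h3
  have h4 : (∀ v, xro v = cr s → ¬ (xG (b := b) κ).Adj (Sum.inr (Sum.inr z)) v) ↔
      xc s z / 2 ^ κ = 0 := by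
    rw [← h3]
    constructor
    · intro h i hi
      have h6 := h (Sum.inl (s, ⟨i, hi⟩)) rfl
      rwa [adj_cell] at h6
    · intro h v hv
      obtain ⟨i, rfl⟩ := xro_core hv
      rw [adj_cell]
      exact h i i.2
  unfold VZer
  rw [h4]
  show xc s z % 2 ^ κ = 0 ∧ xc s z / 2 ^ κ = 0 ↔ xc s z = 0
  have e1 := Nat.div_add_mod (xc s z) (2 ^ κ)
  constructor
  · rintro ⟨h6, h7⟩
    rw [h6, h7] at e1
    simpa using e1.symm
  · intro h
    rw [h]
    simp

end

theorem pf_VEX (hBIT : T_BIT) : T_VEX := by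
  intro Q κ U Hh Vv b K t hb hKl hKu hG
  have hK0 : 0 < K := lt_of_le_of_lt (Nat.zero_le _) hKl
  obtain ⟨hU, hH, hV⟩ := hG
  have vsm := vsame_iff (b := b) hKu hBIT
  have vsc := vsuc_iff (b := b) hKu hBIT
  have vzr := vzer_iff (b := b) hKu hBIT
  refine ⟨VX b K, inferInstance, xG κ, xro, xlo κ, xti t, ⟨?_, ?_, ?_, xchn κ, ?_, ?_⟩, ?_, ?_⟩
  · rintro (p | p | z)
    · exact (cr_le p.1).trans (by norm_num)
    · have := cr_le p.1
      show 2 + cr p.1 ≤ 4
      omega
    · exact le_rfl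
  · rintro s (p | p | z)
    · exact Nat.pow_pos (by norm_num)
    · exact Nat.pow_pos (by norm_num)
    · exact Nat.mod_lt _ (Nat.pow_pos (by norm_num))
  · have key : ∀ u v : VX b K, xE κ u v → xro v ≤ 1 ∧ (xro u = 2 + xro v ∨ xro u = 4) := by
      rintro (p | p | z) (q | q | w) h
      · exact h.elim
      · exact h.elim
      · exact h.elim
      · refine ⟨cr_le _, Or.inl ?_⟩
        show 2 + cr p.1 = 2 + cr q.1
        rw [h.1]
      · exact h.elim
      · exact h.elim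
      · exact ⟨cr_le _, Or.inr rfl⟩
      · exact h.elim
      · exact h.elim
    rintro u v (h | h)
    · exact Or.inr (key u v h)
    · exact Or.inl (key v u h)
  · intro s
    refine ⟨Sum.inr (Sum.inr (⟨K - 1, by omega⟩, ⟨K - 1, by omega⟩)), Sum.inl (s, ⟨b - 1, by omega⟩),
      rfl, rfl, ?_, fun u hu => ?_⟩
    · rw [adj_cell]
      have hx : xc s ((⟨K - 1, by omega⟩, ⟨K - 1, by omega⟩) : Fin K × Fin K) = K - 1 := by
        unfold xc
        split_ifs <;> rfl
      rw [hx]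
      have e1 : κ + b - 1 = κ + (b - 1) := by omega
      have e2 : κ + b = κ + (b - 1 + 1) := by omega
      rw [e1, pow_add] at hKl
      rw [e2, pow_add] at hKu
      refine Nat.testBit_of_two_pow_le_and_two_pow_add_one_gt ?_ ?_
      · rw [Nat.le_div_iff_mul_le (Nat.pow_pos (by norm_num)), Nat.mul_comm]
        show 2 ^ κ * 2 ^ (b - 1) ≤ K - 1
        omega
      · refine Nat.div_lt_of_lt_mul ?_
        show K - 1 < 2 ^ κ * 2 ^ (b - 1 + 1)
        omega
    · obtain ⟨i, rfl⟩ := xro_core hu.2.1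
      have h1 : (⟨b - 1, by omega⟩ : Fin b) < i := (clt_iff κ s _ _).1 hu
      have h2 : b - 1 < (i : ℕ) := h1
      have h3 := i.2
      omega
  · refine ⟨?_, ?_, ?_, ?_, ?_, ?_, ?_⟩
    · intro z z' hz hz' h h'
      obtain ⟨z, rfl⟩ := xro_cell hz
      obtain ⟨z', rfl⟩ := xro_cell hz'
      have h1 := (vsm true z z').1 h
      have h2 := (vsm false z z').1 h'
      have h3 : z = z' := Prod.ext (Fin.ext h1) (Fin.ext h2)
      rw [h3]
    · intro z z' hz hz'
      obtain ⟨z, rfl⟩ := xro_cell hz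
      obtain ⟨z', rfl⟩ := xro_cell hz'
      exact ⟨Sum.inr (Sum.inr (z.1, z'.2)), rfl, (vsm true z _).2 rfl, (vsm false z' _).2 rfl⟩
    · intro s z hz
      obtain ⟨z, rfl⟩ := xro_cell hz
      by_cases h0 : xc s z = 0
      · exact Or.inl ((vzr s z).2 h0)
      · right
        cases s with
        | true =>
          have h1 : z.1.1 ≠ 0 := h0
          have h2 := z.1.2
          refine ⟨Sum.inr (Sum.inr (⟨z.1.1 - 1, by omega⟩, z.2)), rfl, (vsc true _ z).2 ?_⟩
          show z.1.1 = z.1.1 - 1 + 1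
          omega
        | false =>
          have h1 : z.2.1 ≠ 0 := h0
          have h2 := z.2.2
          refine ⟨Sum.inr (Sum.inr (z.1, ⟨z.2.1 - 1, by omega⟩)), rfl, (vsc false _ z).2 ?_⟩
          show z.2.1 = z.2.1 - 1 + 1
          omega
    · exact ⟨Sum.inr (Sum.inr (⟨0, hK0⟩, ⟨0, hK0⟩)), rfl⟩
    · intro z hz a b' c d ha hb' hc hd
      obtain ⟨z, rfl⟩ := xro_cell hz
      have e1 : a = decide (z.1.1 = 0) := by
        rw [Bool.eq_iff_iff, ha, decide_eq_true_iff]
        exact vzr true z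
      have e3 : c = decide (z.2.1 = 0) := by
        rw [Bool.eq_iff_iff, hc, decide_eq_true_iff]
        exact vzr false z
      have e2 : b' = decide (z.1.1 + 1 = K) := by
        rw [Bool.eq_iff_iff, hb', decide_eq_true_iff]
        constructor
        · intro h
          by_contra hne
          have h1 := z.1.2
          exact h ⟨Sum.inr (Sum.inr (⟨z.1.1 + 1, by omega⟩, z.2)), rfl, (vsc true z _).2 rfl⟩
        · rintro h ⟨w, hw, hs⟩
          obtain ⟨w, rfl⟩ := xro_cell hw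
          have h1 : w.1.1 = z.1.1 + 1 := (vsc true z w).1 hs
          have h2 := w.1.2
          omega
      have e4 : d = decide (z.2.1 + 1 = K) := by
        rw [Bool.eq_iff_iff, hd, decide_eq_true_iff]
        constructor
        · intro h
          by_contra hne
          have h1 := z.2.2
          exact h ⟨Sum.inr (Sum.inr (z.1, ⟨z.2.1 + 1, by omega⟩)), rfl, (vsc false z _).2 rfl⟩
        · rintro h ⟨w, hw, hs⟩
          obtain ⟨w, rfl⟩ := xro_cell hw
          have h1 : w.2.1 = z.2.1 + 1 := (vsc false z w).1 hs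
          have h2 := w.2.2
          omega
      rw [e1, e2, e3, e4]
      exact hU z.1.1 z.1.2 z.2.1 z.2.2
    · intro z z' hz hz' h h'
      obtain ⟨z, rfl⟩ := xro_cell hz
      obtain ⟨z', rfl⟩ := xro_cell hz'
      have h1 : z'.1.1 = z.1.1 + 1 := (vsc true z z').1 h
      have h2 : z.2.1 = z'.2.1 := (vsm false z z').1 h'
      show Hh (t z.1 z.2) (t z'.1 z'.2)
      rw [h1, ← h2]
      exact hH _ _ (by rw [← h1]; exact z'.1.2) z.2.2
    · intro z z' hz hz' h h'
      obtain ⟨z, rfl⟩ := xro_cell hz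
      obtain ⟨z', rfl⟩ := xro_cell hz'
      have h1 : z.1.1 = z'.1.1 := (vsm true z z').1 h
      have h2 : z'.2.1 = z.2.1 + 1 := (vsc false z z').1 h'
      show Vv (t z.1 z.2) (t z'.1 z'.2)
      rw [h2, ← h1]
      exact hV _ _ z.1.2 (by rw [← h2]; exact z'.2.2)
  · rw [Nat.card_eq_fintype_card]
    simp only [VX, Fintype.card_sum, Fintype.card_prod, Fintype.card_bool, Fintype.card_fin]
    ring
  · refine ⟨Set.range Sum.inl, ?_, ?_⟩
    · rw [← Set.image_univ, Set.ncard_image_of_injective _ Sum.inl_injective, Set.ncard_univ,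
        Nat.card_eq_fintype_card]
      simp [Fintype.card_prod]
    · have key : ∀ u v : VX b K, xE κ u v → v ∈ Set.range (Sum.inl : Bool × Fin b → VX b K) := by
        rintro (p | p | z) (q | q | w) h
        · exact ⟨q, rfl⟩
        · exact h.elim
        · exact h.elim
        · exact ⟨q, rfl⟩
        · exact h.elim
        · exact h.elim
        · exact ⟨q, rfl⟩
        · exact h.elim
        · exact h.elim
      rintro u v (h | h)
      · exact Or.inr (key u v h)
      · exact Or.inl (key v u h)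

end Pool.Agent.H66.WB
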